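import Mathlib
import Pool.Agent.H53.OM.Geom

namespace Pool.Agent.H36.HY

open Finset Configuration Pool.Agent.H53.OM Pool.Agent.H46.Hyp
open scoped LinearAlgebra.Projectivization

section

variable {K : Type} [Field K] [Fintype K] [DecidableEq K]

/-- sums of powers over a finite field -/
lemma sum_pow_eq {e : ℕ} (he : 0 < e) :
    ∑ x : K, x ^ e = if (Fintype.card K - 1) ∣ e then (-1 : K) else 0 := by
  have h1 : ∑ x : K, x ^ e = ∑ x : Kˣ, ((x : K)) ^ e := by
    rw [← Finset.sum_subset
      (Finset.subset_univ (univ.map ⟨fun x : Kˣ => (x : K), Units.val_injective⟩))]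
    · rw [sum_map]
      rfl
    · intro x _ hx
      rw [mem_map] at hx
      by_cases h0 : x = 0
      · subst h0
        exact zero_pow he.ne'
      · exact absurd ⟨Units.mk0 x h0, mem_univ _, rfl⟩ hx
  rw [h1]
  exact_mod_cast FiniteField.sum_pow_units K e

/-- a line `X + m Y = const` carries at most two points of an arc `oSet K f` -/
theorem line_two {f : K → K}
    (hH : IsArc (ℙ K (Fin 3 → K)) (ℙ K (Fin 3 → K)) (oSet K f))
    (m s x y : K) (hxs : f x + m * x = f s + m * s) (hys : f y + m * y = f s + m * s) :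
    s = x ∨ s = y ∨ x = y := by
  have hl : (![1, m, -(f s + m * s)] : Fin 3 → K) ≠ 0 := fun h => one_ne_zero (congrFun h 0)
  have h := hH (Projectivization.mk K _ hl) _ (mk_mem_oSet f s) _
    (mk_mem_oSet f x) _ (mk_mem_oSet f y)
    (by
      rw [ofField.mem_iff, Projectivization.orthogonal_mk]
      simp [dotProduct, Fin.sum_univ_three]
      ring)
    (by
      rw [ofField.mem_iff, Projectivization.orthogonal_mk]
      simp [dotProduct, Fin.sum_univ_three]
      linear_combination hxs)
    (by
      rw [ofField.mem_iff, Projectivization.orthogonal_mk]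
      simp [dotProduct, Fin.sum_univ_three]
      linear_combination hys)
  rcases h with h | h | h
  · exact Or.inl (mk_eq_mk h)
  · exact Or.inr (Or.inl (mk_eq_mk h))
  · exact Or.inr (Or.inr (mk_eq_mk h))

/-- every line `X + m Y = const` with `m ≠ 0` through a point `(f s : s : 1)` carries a second
point -/
theorem exists_second {f : K → K}
    (hH : IsArc (ℙ K (Fin 3 → K)) (ℙ K (Fin 3 → K)) (oSet K f))
    {m : K} (hm : m ≠ 0) (s : K) : ∃ x, x ≠ s ∧ f x + m * x = f s + m * s := by
  have hinj := inj_of_arc hH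
  set ψ : K → K := fun x => (f x - f s) / (x - s) with hψ
  have h0 : ψ s = 0 := by simp [hψ]
  have hne : ∀ x, x ≠ s → ψ x ≠ 0 := by
    intro x hx h
    rw [hψ] at h
    simp only [div_eq_zero_iff] at h
    rcases h with h | h
    · exact hx (hinj (sub_eq_zero.1 h))
    · exact hx (sub_eq_zero.1 h)
  have hline : ∀ x, x ≠ s → f x + (-ψ x) * x = f s + (-ψ x) * s := by
    intro x hx
    have h1 : x - s ≠ 0 := sub_ne_zero.2 hx
    have h2 : ψ x * (x - s) = f x - f s := by
      rw [hψ]; field_simp
    linear_combination -h2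
  have hψinj : Function.Injective ψ := by
    intro x y hxy
    by_cases hx : x = s
    · by_cases hy : y = s
      · rw [hx, hy]
      · exfalso
        rw [hx, h0] at hxy
        exact hne y hy hxy.symm
    · by_cases hy : y = s
      · exfalso
        rw [hy, h0] at hxy
        exact hne x hx hxy
      · have h1 := hline x hx
        have h2 := hline y hy
        rw [← hxy] at h2
        rcases line_two hH _ s x y h1 h2 with h | h | h
        · exact absurd h.symm hx
        · exact absurd h.symm hy
        · exact h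
  obtain ⟨x, hx⟩ := (Finite.injective_iff_surjective.1 hψinj) (-m)
  have hxs : x ≠ s := by
    intro h
    rw [h, h0] at hx
    exact hm (by simpa using hx.symm)
  refine ⟨x, hxs, ?_⟩
  have := hline x hxs
  rw [hx, neg_neg] at this
  exact this

/-- the power sums of `f y + m y` vanish -/
theorem sum_two_to_one {f : K → K} (h2 : (2 : K) = 0)
    (hH : IsArc (ℙ K (Fin 3 → K)) (ℙ K (Fin 3 → K)) (oSet K f))
    {m : K} (hm : m ≠ 0) (N : ℕ) : ∑ y : K, (f y + m * y) ^ N = 0 := by
  choose σ hσ1 hσ2 using exists_second hH hm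
  refine Finset.sum_involution (fun a _ => σ a) ?_ ?_ ?_ ?_
  · intro a _
    rw [hσ2 a, ← two_mul, h2, zero_mul]
  · intro a _ _
    exact hσ1 a
  · intro a _
    exact mem_univ _
  · intro a _
    have h3 : f (σ (σ a)) + m * σ (σ a) = f a + m * a := by rw [hσ2, hσ2]
    rcases line_two hH m a (σ a) (σ (σ a)) (hσ2 a) h3 with h | h | h
    · exact absurd h.symm (hσ1 a)
    · exact h.symm
    · exact absurd h.symm (hσ1 (σ a))

/-- the mixed power sums vanish: `∑ f(y)^i y^j = 0` if `i, j` have disjoint binary digits -/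
theorem mixed_sum {f : K → K} (h2 : (2 : K) = 0)
    (hH : IsArc (ℙ K (Fin 3 → K)) (ℙ K (Fin 3 → K)) (oSet K f))
    {i j : ℕ} (hj : 0 < j) (hjq : j < Fintype.card K - 1) (hij : i + j ≤ Fintype.card K - 1)
    (hdom : Odd ((i + j).choose j)) : ∑ y : K, f y ^ i * y ^ j = 0 := by
  set q := Fintype.card K with hq
  have hA : ∑ m : K, m ^ (q - 1 - j) * ∑ y : K, (f y + m * y) ^ (i + j) = 0 := by
    apply Finset.sum_eq_zero
    intro m _
    by_cases hm : m = 0
    · subst hm
      rw [zero_pow (by omega), zero_mul]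
    · rw [sum_two_to_one h2 hH hm, mul_zero]
  have hB : ∀ m : K, m ^ (q - 1 - j) * ∑ y : K, (f y + m * y) ^ (i + j) =
      ∑ t ∈ range (i + j + 1), (((i + j).choose t : ℕ) : K) *
        (∑ y : K, f y ^ (i + j - t) * y ^ t) * m ^ (t + (q - 1 - j)) := by
    intro m
    rw [mul_sum]
    have h3 : ∀ y : K, m ^ (q - 1 - j) * (f y + m * y) ^ (i + j) =
        ∑ t ∈ range (i + j + 1), (((i + j).choose t : ℕ) : K) *
          (f y ^ (i + j - t) * y ^ t) * m ^ (t + (q - 1 - j)) := by
      intro y
      rw [add_comm (f y), add_pow, mul_sum]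
      apply sum_congr rfl
      intro t _
      rw [mul_pow, pow_add]
      ring
    rw [sum_congr rfl (fun y _ => h3 y), sum_comm]
    apply sum_congr rfl
    intro t _
    rw [mul_sum, sum_mul]
  rw [sum_congr rfl (fun m _ => hB m), sum_comm] at hA
  have hC : ∀ t ∈ range (i + j + 1), ∑ m : K, (((i + j).choose t : ℕ) : K) *
        (∑ y : K, f y ^ (i + j - t) * y ^ t) * m ^ (t + (q - 1 - j)) =
      if t = j then -(((i + j).choose j : ℕ) : K) * ∑ y : K, f y ^ i * y ^ j else 0 := by
    intro t ht
    rw [mem_range] at ht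
    rw [← mul_sum, sum_pow_eq (by omega : 0 < t + (Fintype.card K - 1 - j))]
    by_cases htj : t = j
    · subst htj
      rw [if_pos rfl, if_pos ⟨1, by omega⟩, show i + t - t = i by omega]
      ring
    · rw [if_neg htj, if_neg, mul_zero]
      rintro ⟨c, hc⟩
      rw [← hq] at hc
      have hc1 : c < 2 := by
        by_contra hcon
        have : (q - 1) * 2 ≤ (q - 1) * c := Nat.mul_le_mul_left _ (by omega)
        omega
      interval_cases c
      · omega
      · omega
  rw [sum_congr rfl hC, sum_ite_eq', if_pos (mem_range.2 (by omega))] at hA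
  have h4 : -(((i + j).choose j : ℕ) : K) ≠ 0 := by
    obtain ⟨t, ht⟩ := hdom
    rw [ht]
    push_cast
    rw [h2]
    simp
  exact (mul_eq_zero.1 hA).resolve_left h4

end

end Pool.Agent.H36.HY
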