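import Mathlib
import Pool.Agent.H36.HY.Sums

namespace Pool.Agent.H36.HY

open Finset Configuration Pool.Agent.H53.OM Pool.Agent.H46.Hyp Polynomial
open scoped LinearAlgebra.Projectivization

lemma dom_disjoint : ∀ (j b e : ℕ), Dom b (b + e) → b.testBit j = true → e.testBit j = false := by
  intro j
  induction j with
  | zero =>
    intro b e h hb
    have h1 := h 0 hb
    rw [Nat.testBit_zero] at hb h1 ⊢
    simp only [decide_eq_true_eq, decide_eq_false_iff_not] at hb h1 ⊢
    omega
  | succ j ih =>
    intro b e h hb
    rw [Nat.testBit_succ] at hb ⊢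
    rw [dom_iff] at h
    apply ih (b / 2) (e / 2) _ hb
    have h2 := h.2
    rwa [show (b + e) / 2 = b / 2 + e / 2 by have := h.1; omega] at h2

section

variable {K : Type} [Field K] [Fintype K] [DecidableEq K]

/-- the sum over the field of a polynomial times a power -/
lemma sum_eval_mul_pow (g : K[X]) (j D : ℕ) (hj : 0 < j) (hD : g.natDegree ≤ D) :
    ∑ y : K, g.eval y * y ^ j =
      -∑ e ∈ (range (D + 1)).filter (fun e => (Fintype.card K - 1) ∣ e + j), g.coeff e := by
  have h1 : ∀ y : K, g.eval y * y ^ j = ∑ e ∈ range (D + 1), g.coeff e * y ^ (e + j) := by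
    intro y
    rw [eval_eq_sum_range' (Nat.lt_succ_of_le hD), sum_mul]
    apply sum_congr rfl
    intro e _
    rw [pow_add]
    ring
  rw [sum_congr rfl (fun y _ => h1 y), sum_comm, sum_filter, ← sum_neg_distrib]
  apply sum_congr rfl
  intro e _
  rw [← mul_sum, sum_pow_eq (by omega)]
  split_ifs with h
  · ring
  · ring

/-- the odd coefficients of an o-polynomial of degree less than `q - 1` vanish -/
theorem odd_coeff_eq_zero {n : ℕ} (hn : 0 < n) (hK : Fintype.card K = 2 ^ n) (f : K[X])
    (hdq : f.natDegree + 1 < 2 ^ n)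
    (hH : IsArc (ℙ K (Fin 3 → K)) (ℙ K (Fin 3 → K)) (oSet K fun x => f.eval x)) :
    ∀ c, c % 2 = 1 → f.coeff c = 0 := by
  have h2 := two_eq_zero hn hK
  have h2n : 2 ^ n = 2 * 2 ^ (n - 1) := by
    rw [← pow_succ', Nat.sub_add_cancel hn]
  obtain ⟨d, hd⟩ : ∃ d, f.natDegree = d := ⟨_, rfl⟩
  rw [hd] at hdq
  intro c hc
  by_cases hcd : d < c
  · exact coeff_eq_zero_of_natDegree_lt (by omega)
  · have h3 : ∑ y : K, f.eval y ^ 1 * y ^ (2 ^ n - 1 - c) = 0 := by
      apply mixed_sum h2 hH (by omega) (by omega) (by omega)
      rw [show 1 + (2 ^ n - 1 - c) = (2 ^ n - 1 - c) + 1 by omega, Nat.choose_succ_self_right]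
      exact ⟨(2 ^ n - 1 - c) / 2, by omega⟩
    simp only [pow_one] at h3
    rw [sum_eval_mul_pow f _ d (by omega) hd.le, neg_eq_zero] at h3
    rw [show (range (d + 1)).filter (fun e => (Fintype.card K - 1) ∣ e + (2 ^ n - 1 - c)) = {c}
      from ?_, sum_singleton] at h3
    · exact h3
    · ext e
      rw [mem_filter, mem_range, mem_singleton, hK]
      constructor
      · rintro ⟨he, w, hw⟩
        have hw2 : w < 2 := by
          by_contra hcon
          have : (2 ^ n - 1) * 2 ≤ (2 ^ n - 1) * w := Nat.mul_le_mul_left _ (by omega)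
          omega
        interval_cases w
        · omega
        · omega
      · intro h
        subst h
        exact ⟨by omega, 1, by omega⟩

/-- Only the top coefficient of `f ^ b` reaches an exponent congruent to an odd number. -/
theorem not_hyperoval_of_walk {n d : ℕ} (hn : 0 < n) (hK : Fintype.card K = 2 ^ n) (f : K[X])
    (hd : f.natDegree = d) (heven : d % 2 = 0) (hd3 : 3 ≤ d) (hdq : d + 1 < 2 ^ n)
    (hw : Walk (d - 1) n 1 1) :
    ¬ IsHyperoval (ℙ K (Fin 3 → K)) (ℙ K (Fin 3 → K)) (oSet K fun x => f.eval x) := by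
  rintro ⟨_, hH⟩
  have h2 := two_eq_zero hn hK
  have hinj := inj_of_arc hH
  have h2n : 2 ^ n = 2 * 2 ^ (n - 1) := by
    rw [← pow_succ', Nat.sub_add_cancel hn]
  -- the odd coefficients vanish
  have hodd := odd_coeff_eq_zero hn hK f (by rw [hd]; exact hdq) hH
  have hoddpow : ∀ b c, c % 2 = 1 → (f ^ b).coeff c = 0 := by
    intro b c hc
    have h3 : f = expand K 2 (contract 2 f) := by
      ext e
      rw [coeff_expand (by norm_num)]
      split_ifs with h
      · rw [coeff_contract (by norm_num), Nat.div_mul_cancel h]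
      · exact hodd e (by omega)
    rw [h3, ← map_pow, coeff_expand (by norm_num), if_neg (by omega)]
  have hfne : f ≠ 0 := by
    intro h
    rw [h, natDegree_zero] at hd
    omega
  have hdeg : ∀ b, (f ^ b).natDegree = b * d := by
    intro b
    rw [natDegree_pow, hd]
  have htop : ∀ b, (f ^ b).coeff (b * d) ≠ 0 := by
    intro b
    rw [← hdeg b, coeff_natDegree]
    exact leadingCoeff_ne_zero.2 (pow_ne_zero _ hfne)
  obtain ⟨b, e, hbe, heq, hdom⟩ := hw.digits
  rw [mul_one] at heq
  set c := b + e with hc
  have hbd : b * d = c + (2 ^ n - 1) := by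
    obtain ⟨κ, hκ⟩ : ∃ κ, d = κ + 1 := ⟨d - 1, by omega⟩
    rw [hκ] at heq ⊢
    rw [Nat.add_sub_cancel] at heq
    rw [mul_add, mul_one, mul_comm b κ]
    omega
  have hb0 : 0 < b := by
    rcases Nat.eq_zero_or_pos b with h | h
    · subst h
      rw [zero_mul] at hbd
      omega
    · exact h
  have hbq : b < 2 ^ n - 1 := by
    have h3 : b * 3 ≤ b * d := Nat.mul_le_mul_left _ hd3
    omega
  rcases Nat.lt_or_ge c (2 ^ n - 1) with hcq | hcq
  · -- the sum with exponents `b` and `q - 1 - c`
    have hcodd : c % 2 = 1 := by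
      have h3 : (b * d) % 2 = 0 := by
        rw [Nat.mul_mod, heven, mul_zero, Nat.zero_mod]
      omega
    have h3 : ∑ y : K, f.eval y ^ b * y ^ (2 ^ n - 1 - c) = 0 := by
      apply mixed_sum h2 hH (by omega) (by omega) (by omega)
      rw [← Nat.choose_symm_add, odd_choose]
      intro j hj
      have h4 := dom_disjoint j b e hdom hj
      have hjn : j < n := by
        by_contra hge
        have := Nat.testBit_lt_two_pow (lt_of_lt_of_le (show b < 2 ^ n by omega)
          (Nat.pow_le_pow_right (by norm_num) (not_lt.1 hge)))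
        rw [this] at hj
        exact absurd hj (by simp)
      rw [show b + (2 ^ n - 1 - c) = 2 ^ n - (e + 1) by omega,
        Nat.testBit_two_pow_sub_succ (by omega)]
      simp [hjn, h4]
    have h4 : ∀ y : K, f.eval y ^ b * y ^ (2 ^ n - 1 - c) = (f ^ b).eval y * y ^ (2 ^ n - 1 - c) := by
      intro y
      rw [eval_pow]
    rw [sum_congr rfl (fun y _ => h4 y), sum_eval_mul_pow (f ^ b) _ (b * d) (by omega) (hdeg b).le,
      neg_eq_zero] at h3
    rw [show (range (b * d + 1)).filter
      (fun e => (Fintype.card K - 1) ∣ e + (2 ^ n - 1 - c)) = {c, b * d} from ?_,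
      sum_pair (by omega), hoddpow b c hcodd, zero_add] at h3
    · exact htop b h3
    · ext x
      rw [mem_filter, mem_range, mem_insert, mem_singleton, hK]
      constructor
      · rintro ⟨he, w, hw⟩
        have hw2 : w < 3 := by
          by_contra hcon
          have : (2 ^ n - 1) * 3 ≤ (2 ^ n - 1) * w := Nat.mul_le_mul_left _ (by omega)
          omega
        interval_cases w
        · omega
        · omega
        · omega
      · rintro (h | h)
        · subst h
          exact ⟨by omega, 1, by omega⟩
        · subst h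
          exact ⟨by omega, 2, by omega⟩
  · -- `c = q - 1`: the sum of the `b`-th powers of the values
    have hcq' : c = 2 ^ n - 1 := by omega
    have hbij : Function.Bijective (fun x => f.eval x) := Finite.injective_iff_bijective.1 hinj
    have h3 : ∑ y : K, f.eval y ^ b = 0 := by
      rw [hbij.sum_comp (fun y => y ^ b)]
      exact FiniteField.sum_pow_lt_card_sub_one K b (by omega)
    have h4 : ∀ y : K, f.eval y ^ b = ∑ e ∈ range (b * d + 1), (f ^ b).coeff e * y ^ e := by
      intro y
      rw [← eval_pow, eval_eq_sum_range' (show (f ^ b).natDegree < b * d + 1 by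
        rw [hdeg b]; exact Nat.lt_succ_self _)]
    rw [sum_congr rfl (fun y _ => h4 y), sum_comm] at h3
    have h5 : ∀ x ∈ range (b * d + 1), ∑ y : K, (f ^ b).coeff x * y ^ x =
        if x = b * d then -(f ^ b).coeff (b * d) else 0 := by
      intro x hx
      rw [mem_range] at hx
      rw [← mul_sum]
      rcases Nat.eq_zero_or_pos x with h0 | h0
      · subst h0
        rw [if_neg (by omega)]
        simp
      · rw [sum_pow_eq h0]
        by_cases hxb : x = b * d
        · rw [if_pos hxb, hxb, if_pos ⟨2, by omega⟩]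
          ring
        · rw [if_neg hxb]
          split_ifs with h
          · obtain ⟨w, hw⟩ := h
            rw [hK] at hw
            have hw2 : w < 2 := by
              by_contra hcon
              have : (2 ^ n - 1) * 2 ≤ (2 ^ n - 1) * w := Nat.mul_le_mul_left _ (by omega)
              omega
            interval_cases w
            · omega
            · rw [hoddpow b x (by omega), zero_mul]
          · rw [mul_zero]
    rw [sum_congr rfl h5, sum_ite_eq', if_pos (mem_range.2 (by omega)), neg_eq_zero] at h3
    exact htop b h3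

end

end Pool.Agent.H36.HY
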