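import Mathlib
import Pool.Agent.H53.OM.TwoModFour

namespace Pool.Agent.H36.HY

open Pool.Agent.H53.OM

lemma walk_floor {m r E : ℕ} (h : Walk (2 * m - 1) r E 1) :
    Walk (2 * m - 1) (r + 1) (2 * E + 1) 1 := ⟨E, Or.inr (Or.inl rfl), h⟩

lemma walk_jump {m r E : ℕ} (hm : 1 ≤ m) (h : Walk (2 * m - 1) r (E + m) 1) :
    Walk (2 * m - 1) (r + 1) (2 * E + 1) 1 :=
  ⟨E + m, Or.inr (Or.inr ⟨by omega, by omega⟩), h⟩

lemma walk_half {κ r z : ℕ} (h : Walk κ r z 1) : Walk κ (r + 1) (2 * z) 1 :=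
  ⟨z, Or.inl rfl, h⟩

lemma walk_halves {κ z : ℕ} : ∀ {v r : ℕ}, Walk κ r z 1 → Walk κ (r + v) (2 ^ v * z) 1 := by
  intro v
  induction v with
  | zero => intro r h; simpa using h
  | succ v ih =>
    intro r h
    rw [show r + (v + 1) = (r + v) + 1 by ring, show 2 ^ (v + 1) * z = 2 * (2 ^ v * z) by
      rw [pow_succ]; ring]
    exact walk_half (ih h)

/-- the odd positions from which `1` cannot be reached in `L + 1 + j` steps -/
theorem bad_form {L m ν : ℕ} (hL1 : 2 ^ L < 2 * m) (hL2 : m < 2 ^ L)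
    (h3 : 2 ^ (L + 1) < 3 * m) (h16 : m % 16 = 3) (hν : m % 2 ^ ν = 3) :
    ∀ j, j < ν → ∀ E, E + 2 ≤ m → ¬ Walk (2 * m - 1) (L + 1 + j) (2 * E + 1) 1 →
      E < 2 ^ j * (2 ^ L - m) ∧ E % 2 ^ (j + 1) = j % 2 := by
  have hp : 2 ^ (L + 1) = 2 * 2 ^ L := by rw [pow_succ]; ring
  have hL0 : 1 ≤ L := by
    rcases Nat.eq_zero_or_pos L with h | h
    · subst h; simp at hL2; omega
    · exact h
  obtain ⟨l, rfl⟩ : ∃ l, L = l + 1 := ⟨L - 1, by omega⟩
  have hpl : 2 ^ (l + 1) = 2 * 2 ^ l := by rw [pow_succ]; ring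
  intro j
  induction j using Nat.strong_induction_on with
  | _ j ih =>
    intro hj E hE hbad
    -- index zero
    have hL : ∀ E, E + 1 + m ≤ 2 ^ (l + 1) → Walk (2 * m - 1) (l + 1) (2 * E + 1) 1 := by
      intro E hE
      exact walk_jump (by omega) (walk_desc l _ (by omega) (by omega))
    rcases Nat.eq_zero_or_pos j with h0 | h0
    · subst h0
      have hlt : E + 1 + m ≤ 2 ^ (l + 1) := by
        by_contra hcon
        exact hbad (walk_jump (by omega) (walk_desc (l + 1) _ (by omega) (by omega)))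
      refine ⟨by omega, ?_⟩
      by_contra hcon
      obtain ⟨F, hF⟩ : ∃ F, E = 2 * F + 1 := ⟨E / 2, by simp at hcon; omega⟩
      apply hbad
      refine walk_floor ?_
      rw [hF]
      exact hL F (by omega)
    obtain ⟨i, rfl⟩ : ∃ i, j = i + 1 := ⟨j - 1, by omega⟩
    -- the odd successor
    obtain ⟨E', hE'⟩ : ∃ E', E = 2 * E' + 1 ∨ (E % 2 = 0 ∧ E + m = 2 * E' + 1) := by
      rcases Nat.mod_two_eq_zero_or_one E with h | h
      · exact ⟨(E + m) / 2, Or.inr ⟨h, by omega⟩⟩
      · exact ⟨E / 2, Or.inl (by omega)⟩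
    have hbad' : ¬ Walk (2 * m - 1) (l + 1 + 1 + i) (2 * E' + 1) 1 := by
      intro h
      apply hbad
      rcases hE' with h1 | ⟨_, h1⟩
      · rw [← h1] at h
        exact walk_floor h
      · rw [← h1] at h
        exact walk_jump (by omega) h
    obtain ⟨hi1, hi2⟩ := ih i (by omega) (by omega) E' (by omega) hbad'
    have hlt : E < 2 ^ (i + 1) * (2 ^ (l + 1) - m) := by
      have h4 : 2 ^ (i + 1) * (2 ^ (l + 1) - m) = 2 * (2 ^ i * (2 ^ (l + 1) - m)) := by
        rw [pow_succ]; ring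
      omega
    refine ⟨hlt, ?_⟩
    rcases Nat.eq_zero_or_pos i with h0 | h0
    · -- index one
      subst h0
      simp only [zero_add, pow_one, pow_zero, one_mul, Nat.zero_mod] at hi1 hi2 ⊢
      rcases hE' with h1 | ⟨h1, h2⟩
      · norm_num
        omega
      · exfalso
        omega
    · obtain ⟨k, rfl⟩ : ∃ k, i = k + 1 := ⟨i - 1, by omega⟩
      have hpk : 2 ^ (k + 1 + 1) = 4 * 2 ^ k := by rw [pow_succ, pow_succ]; ring
      have hpk3 : 2 ^ (k + 1 + 1 + 1) = 8 * 2 ^ k := by rw [pow_succ, pow_succ, pow_succ]; ring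
      rw [hpk] at hi2
      rw [hpk3]
      have hpkm : m % (8 * 2 ^ k) = 3 := by
        have hdv : 2 ^ (k + 1 + 1 + 1) ∣ 2 ^ ν := pow_dvd_pow _ (by omega)
        rw [hpk3] at hdv
        rw [← Nat.mod_mod_of_dvd m hdv, hν]
        exact Nat.mod_eq_of_lt (by have := Nat.one_le_two_pow (n := k); omega)
      obtain ⟨M, hM⟩ : ∃ M, m = 8 * 2 ^ k * M + 3 := ⟨m / (8 * 2 ^ k), by
        have := Nat.div_add_mod m (8 * 2 ^ k); omega⟩
      obtain ⟨F, hF⟩ : ∃ F, E' = 4 * 2 ^ k * F + (k + 1) % 2 := ⟨E' / (4 * 2 ^ k), by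
        have := Nat.div_add_mod E' (4 * 2 ^ k); omega⟩
      rcases Nat.mod_two_eq_zero_or_one k with hk | hk
      · -- `j = k + 2` even
        have hk1 : (k + 1) % 2 = 1 := by omega
        have hk2 : (k + 1 + 1) % 2 = 0 := by omega
        rw [hk2]
        rw [hk1] at hF
        have e8 : 8 * 2 ^ k * M = 8 * (2 ^ k * M) := by ring
        have e8' : 8 * 2 ^ k * F = 8 * (2 ^ k * F) := by ring
        have e4 : 4 * 2 ^ k * F = 4 * (2 ^ k * F) := by ring
        rcases hE' with h1 | ⟨h1, h2⟩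
        · exfalso
          obtain ⟨E'', hE''⟩ : ∃ E'', E + m = 2 * (2 * E'' + 1) := ⟨(E + m) / 4, by omega⟩
          have hgood : Walk (2 * m - 1) (l + 1 + 1 + k) (2 * E'' + 1) 1 := by
            by_contra hcon
            have h5 := (ih k (by omega) (by omega) E'' (by omega) hcon).2
            have h6 : E'' % 2 = 0 := by
              have : E'' % 2 ^ (k + 1) % 2 = E'' % 2 :=
                Nat.mod_mod_of_dvd _ (dvd_pow_self 2 (by omega))
              rw [h5, hk] at this
              omega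
            omega
          apply hbad
          have h5 := walk_half hgood
          rw [← hE''] at h5
          exact walk_jump (by omega) h5
        · have h5 : E = 8 * 2 ^ k * F - 8 * 2 ^ k * M := by omega
          rw [h5, ← Nat.mul_sub]
          exact Nat.mul_mod_right _ _
      · -- `j = k + 2` odd
        have hk1 : (k + 1) % 2 = 0 := by omega
        have hk2 : (k + 1 + 1) % 2 = 1 := by omega
        rw [hk2]
        rw [hk1] at hF
        obtain ⟨k', rfl⟩ : ∃ k', k = k' + 1 := ⟨k - 1, by omega⟩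
        have hpk' : 2 ^ (k' + 1) = 2 * 2 ^ k' := by rw [pow_succ]; ring
        have e8 : 8 * 2 ^ (k' + 1) * M = 16 * (2 ^ k' * M) := by rw [hpk']; ring
        have e8' : 8 * 2 ^ (k' + 1) * F = 16 * (2 ^ k' * F) := by rw [hpk']; ring
        have e4 : 4 * 2 ^ (k' + 1) * F = 8 * (2 ^ k' * F) := by rw [hpk']; ring
        rcases hE' with h1 | ⟨h1, h2⟩
        · have h5 : E = 8 * 2 ^ (k' + 1) * F + 1 := by omega
          rw [h5, Nat.mul_add_mod]
          exact Nat.mod_eq_of_lt (by have := Nat.one_le_two_pow (n := k'); omega)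
        · exfalso
          obtain ⟨E'', hE''⟩ : ∃ E'', E = 2 * (2 * E'' + 1) := ⟨E / 4, by omega⟩
          have hgood : Walk (2 * m - 1) (l + 1 + 1 + (k' + 1)) (2 * E'' + 1) 1 := by
            by_contra hcon
            have h5 := (ih (k' + 1) (by omega) (by omega) E'' (by omega) hcon).2
            have h6 : E'' % 4 = 1 := by
              have h7 : E'' % 2 ^ (k' + 1 + 1) % 2 ^ 2 = E'' % 2 ^ 2 :=
                Nat.mod_mod_of_dvd _ (pow_dvd_pow 2 (by omega))
              rw [h5, hk] at h7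
              omega
            omega
          apply hbad
          have h5 := walk_half hgood
          rw [← hE''] at h5
          exact walk_floor h5

end Pool.Agent.H36.HY
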