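import Mathlib
import Pool.Agent.H36.HY.Odd

namespace Pool.Agent.H36.HY

open Pool.Agent.H53.OM

/-- the walk which uses the digits of `b` -/
theorem walk_of_dom {κ : ℕ} (hκ : κ % 2 = 1) : ∀ {n c b : ℕ}, b < 2 ^ n → Dom b (c + (κ + 1) * b) →
    Walk κ n c ((c + (κ + 1) * b) / 2 ^ n) := by
  intro n
  induction n with
  | zero =>
    intro c b hb _
    have : b = 0 := by simpa using hb
    subst this
    simp [Walk]
  | succ n ih =>
    intro c b hb hd
    have hp : 2 ^ (n + 1) = 2 * 2 ^ n := by rw [pow_succ]; ring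
    rw [dom_iff] at hd
    obtain ⟨hd0, hd1⟩ := hd
    obtain ⟨b', hb'⟩ : ∃ b', b = 2 * b' ∨ b = 2 * b' + 1 := ⟨b / 2, by omega⟩
    have hb2 : b' < 2 ^ n := by omega
    rcases hb' with hb' | hb'
    · -- digit zero
      subst hb'
      refine ⟨c / 2, ?_, ?_⟩
      · rcases Nat.mod_two_eq_zero_or_one c with h | h
        · left; omega
        · right; left; omega
      · have h1 : (c + (κ + 1) * (2 * b')) / 2 = c / 2 + (κ + 1) * b' := by
          rw [show c + (κ + 1) * (2 * b') = c + 2 * ((κ + 1) * b') by ring,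
            Nat.add_mul_div_left _ _ (by norm_num)]
        rw [h1, show 2 * b' / 2 = b' by omega] at hd1
        have h2 := ih hb2 hd1
        rwa [← h1, Nat.div_div_eq_div_mul, ← hp] at h2
    · -- digit one
      subst hb'
      have h0 : c + (κ + 1) * (2 * b' + 1) = c + (κ + 1) + 2 * ((κ + 1) * b') := by ring
      have hodd : c % 2 = 1 := by
        have h3 := hd0 (by omega)
        rw [h0] at h3
        omega
      refine ⟨(c + κ) / 2, Or.inr (Or.inr ⟨hodd, by omega⟩), ?_⟩
      have h1 : (c + (κ + 1) * (2 * b' + 1)) / 2 = (c + κ) / 2 + (κ + 1) * b' := by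
        rw [h0, Nat.add_mul_div_left _ _ (by norm_num)]
        omega
      rw [h1, show (2 * b' + 1) / 2 = b' by omega] at hd1
      have h2 := ih hb2 hd1
      rwa [← h1, Nat.div_div_eq_div_mul, ← hp] at h2

end Pool.Agent.H36.HY
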