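import Mathlib
import Pool.Agent.H36.HY.WalkDom

namespace Pool.Agent.H36.HY

open Pool.Agent.H53.OM

/-- positions `≡ 3 mod 4` reach `1` in exactly `L + 1` steps -/
theorem exit_three {D L E : ℕ} (hL1 : 2 ^ L < 2 * D) (hL2 : D < 2 ^ L) (hE : E % 2 = 1)
    (hED : E < D) : Walk (2 * D - 1) (L + 1) (2 * E + 1) 1 := by
  have hL0 : 1 ≤ L := by
    rcases Nat.eq_zero_or_pos L with h | h
    · subst h; simp at hL2; omega
    · exact h
  obtain ⟨l, rfl⟩ : ∃ l, L = l + 1 := ⟨L - 1, by omega⟩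
  have hp : 2 ^ (l + 1) = 2 * 2 ^ l := by rw [pow_succ]; ring
  have hp2 : 2 ^ (l + 1 + 1) = 4 * 2 ^ l := by rw [pow_succ, pow_succ]; ring
  rcases Nat.lt_or_ge (E + D) (2 ^ (l + 1)) with h | h
  · refine walk_floor ?_
    obtain ⟨F, hF⟩ : ∃ F, E = 2 * F + 1 := ⟨E / 2, by omega⟩
    rw [hF]
    exact walk_jump (by omega) (walk_desc l _ (by omega) (by omega))
  · exact walk_jump (by omega) (walk_desc (l + 1) _ h (by omega))

/-- for `d = 4 m` every position `≡ 3 mod 4` reaches `1` in every number `≥ L + 1` of steps -/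
theorem far_four {m L : ℕ} (hodd : m % 2 = 1) (hL1 : 2 ^ L < 2 * (2 * m)) (hL2 : 2 * m < 2 ^ L) :
    ∀ r E : ℕ, E % 2 = 1 → E < 2 * m → Walk (2 * (2 * m) - 1) (L + 1 + r) (2 * E + 1) 1 := by
  intro r
  induction r with
  | zero => intro E hE hEm; exact exit_three hL1 hL2 hE hEm
  | succ r ih =>
    intro E hE hEm
    obtain ⟨F, hF⟩ : ∃ F, E = 2 * F + 1 := ⟨E / 2, by omega⟩
    rcases Nat.mod_two_eq_zero_or_one F with h | h
    · have h1 := ih (F + m) (by omega) (by omega)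
      rw [show 2 * (F + m) + 1 = E + 2 * m by omega] at h1
      exact walk_jump (by omega) h1
    · have h1 := ih F h (by omega)
      rw [← hF] at h1
      exact walk_floor h1

/-- the numbers `1 + 4 + ⋯ + 4 ^ (r - 1)` -/
def rep4 : ℕ → ℕ
  | 0 => 0
  | r + 1 => 1 + 4 * rep4 r

lemma rep4_eq (r : ℕ) : 3 * rep4 r + 1 = 4 ^ r := by
  induction r with
  | zero => simp [rep4]
  | succ r ih => rw [rep4, pow_succ, ← ih]; ring

lemma rep4_succ (r : ℕ) : rep4 (r + 1) = rep4 r + 4 ^ r := by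
  have h1 := rep4_eq r
  rw [rep4, ← h1]; ring

lemma dom_rep4 : ∀ (r Y k : ℕ), Y = rep4 r + 4 ^ r * k → Dom (rep4 r) Y := by
  intro r
  induction r with
  | zero => intro Y k _ j hj; simp [rep4] at hj
  | succ r ih =>
    intro Y k hY
    have h1 := ih (rep4 r + 4 ^ r * k) k rfl
    rw [dom_iff]
    have h2 : Y = 1 + 4 * (rep4 r + 4 ^ r * k) := by rw [hY, rep4, pow_succ]; ring
    constructor
    · intro _; omega
    · rw [show rep4 (r + 1) / 2 = 2 * rep4 r by rw [rep4]; omega,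
        show Y / 2 = 2 * (rep4 r + 4 ^ r * k) by omega, dom_iff]
      constructor
      · intro h; omega
      · rwa [show 2 * rep4 r / 2 = rep4 r by omega,
          show 2 * (rep4 r + 4 ^ r * k) / 2 = rep4 r + 4 ^ r * k by omega]

/-- the combinatorial statement: a number `N` whose digits produce a position `≡ 3 mod 4` -/
theorem exists_three {m l : ℕ} (hodd : m % 2 = 1) (h1 : 1 < m) (hl : m < 2 ^ (l + 1)) :
    ∃ i N, i ≤ l + 1 ∧ N < 2 ^ (i + 2) ∧ Dom N (1 + 4 * m * N) ∧ (m * N / 2 ^ i) % 4 = 3 := by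
  by_cases hadj : ∃ q, (m / 2 ^ q) % 4 = 3
  · obtain ⟨q, hq⟩ := hadj
    refine ⟨q, 1, ?_, ?_, ?_, by rw [mul_one]; exact hq⟩
    · by_contra hcon
      have : m / 2 ^ q = 0 := Nat.div_eq_of_lt (lt_of_lt_of_le hl
        (Nat.pow_le_pow_right (by norm_num) (by omega)))
      omega
    · have := Nat.one_le_two_pow (n := q)
      rw [pow_add]; omega
    · rw [dom_iff]
      refine ⟨fun _ => by omega, ?_⟩
      intro j hj
      simp at hj
  push Not at hadj
  have hdd : ∀ q, m / 2 ^ (q + 2) = m / 2 ^ q / 4 := by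
    intro q
    rw [pow_add, ← Nat.div_div_eq_div_mul]
    norm_num
  by_cases hgap : ∃ q, (m / 2 ^ q) % 32 = 5
  · obtain ⟨q, hq⟩ := hgap
    refine ⟨q + 3, 5, ?_, ?_, ?_, ?_⟩
    · by_contra hcon
      have h2 : m < 2 ^ (q + 2) := lt_of_lt_of_le hl (Nat.pow_le_pow_right (by norm_num) (by omega))
      have h3 : m / 2 ^ q < 4 := by
        rw [Nat.div_lt_iff_lt_mul (by positivity)]
        have h5 : 2 ^ (q + 2) = 4 * 2 ^ q := by rw [pow_add]; ring
        omega
      obtain ⟨x, hx⟩ : ∃ x, m / 2 ^ q = x := ⟨_, rfl⟩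
      rw [hx] at hq h3
      omega
    · have := Nat.one_le_two_pow (n := q)
      rw [show 2 ^ (q + 3 + 2) = 2 ^ q * 32 by rw [add_assoc, pow_add]; norm_num]; omega
    · rw [show 1 + 4 * m * 5 = 1 + 4 * (5 * m) by ring, dom_iff]
      refine ⟨fun _ => by omega, ?_⟩
      rw [show 5 / 2 = 2 by norm_num, show (1 + 4 * (5 * m)) / 2 = 2 * (5 * m) by omega, dom_iff]
      refine ⟨fun h => by omega, ?_⟩
      rw [show 2 / 2 = 1 by norm_num, show 2 * (5 * m) / 2 = 5 * m by omega, dom_iff]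
      refine ⟨fun _ => by omega, ?_⟩
      intro j hj
      simp at hj
    · have h2 := Nat.div_add_mod m (2 ^ q)
      have h3 := Nat.mod_lt m (show 0 < 2 ^ q by positivity)
      obtain ⟨M, hM⟩ : ∃ M, m / 2 ^ q = 32 * M + 5 := ⟨m / 2 ^ q / 32, by omega⟩
      rw [hM] at h2
      have h4 : m * 5 / 2 ^ q = 160 * M + 25 + 5 * (m % 2 ^ q) / 2 ^ q := by
        have h5 : m * 5 = 5 * (m % 2 ^ q) + 2 ^ q * (160 * M + 25) := by
          conv_lhs => rw [← h2]
          ring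
        rw [h5, Nat.add_mul_div_left _ _ (by positivity)]
        ring
      have h6 : 5 * (m % 2 ^ q) / 2 ^ q < 5 := by
        rw [Nat.div_lt_iff_lt_mul (by positivity)]
        omega
      rw [pow_add, ← Nat.div_div_eq_div_mul, h4]
      obtain ⟨c, hc⟩ : ∃ c, 5 * (m % 2 ^ q) / 2 ^ q = c := ⟨_, rfl⟩
      rw [hc] at h6 ⊢
      have h7 : (160 * M + 25 + c) / 2 ^ 3 = 20 * M + 3 := by norm_num; omega
      rw [h7]; omega
  push Not at hgap
  have hno5 : ∀ k q, l + 1 ≤ q + k → (m / 2 ^ q) % 8 ≠ 5 := by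
    intro k
    induction k using Nat.strong_induction_on with
    | _ k ih =>
      intro q hq h
      rcases Nat.lt_or_ge k 1 with hk | hk
      · have : m / 2 ^ q = 0 := Nat.div_eq_of_lt (lt_of_lt_of_le hl
          (Nat.pow_le_pow_right (by norm_num) (by omega)))
        omega
      · have h2 := ih (k - 1) (by omega) (q + 2) (by omega)
        have h3 := hadj (q + 2)
        have h4 := hgap q
        rw [hdd] at h2 h3
        omega
  have hm5 : m % 8 ≠ 5 := by
    have := hno5 (l + 1) 0 (by omega)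
    simpa using this
  have hm3 : m % 4 ≠ 3 := by
    have := hadj 0
    simpa using this
  obtain ⟨g, m', hm', hg⟩ := Nat.exists_eq_two_pow_mul_odd (n := m - 1) (by omega)
  have hm'1 : m' % 2 = 1 := Nat.odd_iff.1 hm'
  have hg3 : 3 ≤ g := by
    by_contra hcon
    have h2 : g = 0 ∨ g = 1 ∨ g = 2 := by omega
    rcases h2 with h2 | h2 | h2
    · subst h2; simp at hg; omega
    · subst h2; omega
    · subst h2; omega
  have hme : m = 1 + 2 ^ g * m' := by omega
  have hgl : g ≤ l := by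
    have h2 : 2 ^ g < 2 ^ (l + 1) := by
      have h3 : 2 ^ g * 1 ≤ 2 ^ g * m' := Nat.mul_le_mul_left _ hm'.pos
      omega
    have := (Nat.pow_lt_pow_iff_right (by norm_num : 1 < 2)).1 h2
    omega
  have hmg : m / 2 ^ g = m' := by
    rw [hme, Nat.add_mul_div_left _ _ (by positivity), Nat.div_eq_of_lt, zero_add]
    exact Nat.one_lt_two_pow (by omega)
  have hm'8 : m' % 8 = 1 := by
    have h2 := hadj g
    have h3 := hno5 (l + 1) g (by omega)
    rw [hmg] at h2 h3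
    omega
  rcases Nat.mod_two_eq_zero_or_one g with hge | hgo
  · -- `g` even
    obtain ⟨r, hr⟩ : ∃ r, g = 2 * (r + 1) := ⟨g / 2 - 1, by omega⟩
    have h4r : 2 ^ g = 4 ^ (r + 1) := by rw [hr, pow_mul]; norm_num
    obtain ⟨s, hs⟩ : ∃ s, r = s + 1 := ⟨r - 1, by omega⟩
    have hN5 : rep4 (r + 2) % 8 = 5 := by
      rw [hs, rep4, rep4, rep4]; omega
    have hN4 := rep4_eq (r + 2)
    have h45 : 4 ^ (r + 2) = 4 * 4 ^ (r + 1) := by rw [pow_succ]; ring
    have hN7 := rep4_succ (r + 1)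
    rw [show r + 1 + 1 = r + 2 from rfl] at hN7
    refine ⟨g + 1, rep4 (r + 2), by omega, ?_, ?_, ?_⟩
    · have h3 : 2 ^ (g + 1 + 2) = 8 * 4 ^ (r + 1) := by rw [← h4r, add_assoc, pow_add]; ring
      omega
    · refine dom_rep4 _ _ (1 + m' * rep4 (r + 2)) ?_
      rw [hme, h4r]
      have h8 : 1 + 4 * (1 + 4 ^ (r + 1) * m') * rep4 (r + 2) =
          1 + 4 * rep4 (r + 2) + 4 ^ (r + 2) * (m' * rep4 (r + 2)) := by
        rw [h45]; ring
      rw [h8, show 1 + 4 * rep4 (r + 2) = rep4 (r + 2) + 4 ^ (r + 2) by omega]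
      ring
    · have h2 : m * rep4 (r + 2) = rep4 (r + 2) + 2 ^ g * (m' * rep4 (r + 2)) := by
        rw [hme]; ring
      have h3 : m * rep4 (r + 2) / 2 ^ g = 1 + m' * rep4 (r + 2) := by
        rw [h2, Nat.add_mul_div_left _ _ (by positivity), hN7, h4r,
          Nat.add_div_right _ (by positivity), Nat.div_eq_of_lt]
        have h9 := rep4_eq (r + 1)
        omega
      rw [pow_succ, ← Nat.div_div_eq_div_mul, h3]
      have h4 : (m' * rep4 (r + 2)) % 8 = 5 := by
        rw [Nat.mul_mod, hm'8, hN5]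
      obtain ⟨c, hc⟩ : ∃ c, m' * rep4 (r + 2) = c := ⟨_, rfl⟩
      rw [hc] at h4 ⊢
      omega
  · -- `g` odd
    obtain ⟨s, hs⟩ : ∃ s, g = 2 * (s + 1) + 1 := ⟨(g - 3) / 2, by omega⟩
    have h4s : 2 ^ g = 2 * 4 ^ (s + 1) := by
      rw [hs, pow_succ, pow_mul]; norm_num; ring
    have hN4 := rep4_eq (s + 2)
    have h45 : 4 ^ (s + 2) = 4 * 4 ^ (s + 1) := by rw [pow_succ]; ring
    have hN7 := rep4_succ (s + 1)
    rw [show s + 1 + 1 = s + 2 from rfl] at hN7
    have hNodd : rep4 (s + 2) % 2 = 1 := by rw [rep4]; omega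
    have hgi : 2 ^ (2 * (s + 1)) = 4 ^ (s + 1) := by rw [pow_mul]; norm_num
    refine ⟨2 * (s + 1), rep4 (s + 2), by omega, ?_, ?_, ?_⟩
    · rw [pow_add, hgi]
      omega
    · refine dom_rep4 _ _ (1 + 2 * (m' * rep4 (s + 2))) ?_
      have h8 : 1 + 4 * m * rep4 (s + 2) =
          1 + 4 * rep4 (s + 2) + 4 ^ (s + 2) * (2 * (m' * rep4 (s + 2))) := by
        rw [hme, h4s, h45]; ring
      rw [h8, show 1 + 4 * rep4 (s + 2) = rep4 (s + 2) + 4 ^ (s + 2) by omega]
      ring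
    · have h3 : m * rep4 (s + 2) / 2 ^ (2 * (s + 1)) = 1 + 2 * (m' * rep4 (s + 2)) := by
        have h2 : m * rep4 (s + 2) = rep4 (s + 1) + 4 ^ (s + 1) * (1 + 2 * (m' * rep4 (s + 2))) := by
          calc m * rep4 (s + 2) = rep4 (s + 2) + 2 ^ g * (m' * rep4 (s + 2)) := by rw [hme]; ring
            _ = rep4 (s + 1) + 4 ^ (s + 1) + 2 * 4 ^ (s + 1) * (m' * rep4 (s + 2)) := by
              rw [← hN7, h4s]
            _ = _ := by ring
        rw [h2, hgi, Nat.add_mul_div_left _ _ (by positivity), Nat.div_eq_of_lt, zero_add]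
        have h9 := rep4_eq (s + 1)
        omega
      rw [h3]
      have h4 : (m' * rep4 (s + 2)) % 2 = 1 := by
        rw [Nat.mul_mod, hm'1, hNodd]
      obtain ⟨c, hc⟩ : ∃ c, m' * rep4 (s + 2) = c := ⟨_, rfl⟩
      rw [hc] at h4 ⊢
      omega

end Pool.Agent.H36.HY
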