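import Mathlib
import Pool.Agent.H36.HY.Degree

namespace Pool.Agent.H36.HY

open Finset Configuration Pool.Agent.H53.OM Pool.Agent.H46.Hyp Polynomial
open scoped LinearAlgebra.Projectivization

section

variable {K : Type} [Field K] [Fintype K] [DecidableEq K]

/-- the slopes at a point of an arc are pairwise different -/
theorem slope_injective {f : K → K}
    (hH : IsArc (ℙ K (Fin 3 → K)) (ℙ K (Fin 3 → K)) (oSet K f)) (s : K) :
    Function.Injective (fun x => (f (x + s) - f s) / x) := by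
  have hinj := inj_of_arc hH
  set ψ : K → K := fun x => (f (x + s) - f s) / x with hψ
  have h0 : ψ 0 = 0 := by simp [hψ]
  have hne : ∀ x, x ≠ 0 → ψ x ≠ 0 := by
    intro x hx h
    rw [hψ] at h
    simp only [div_eq_zero_iff] at h
    rcases h with h | h
    · have := hinj (sub_eq_zero.1 h)
      exact hx (by simpa using this)
    · exact hx h
  have hline : ∀ x, x ≠ 0 → f (x + s) + (-ψ x) * (x + s) = f s + (-ψ x) * s := by
    intro x hx
    have h2 : ψ x * x = f (x + s) - f s := by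
      rw [hψ]; field_simp
    linear_combination -h2
  intro x y hxy
  change ψ x = ψ y at hxy
  by_cases hx : x = 0
  · by_cases hy : y = 0
    · rw [hx, hy]
    · exfalso
      rw [hx, h0] at hxy
      exact hne y hy hxy.symm
  · by_cases hy : y = 0
    · exfalso
      rw [hy, h0] at hxy
      exact hne x hx hxy
    · have h1 := hline x hx
      have h2 := hline y hy
      rw [← hxy] at h2
      rcases line_two hH _ s (x + s) (y + s) h1 h2 with h | h | h
      · exact absurd (by simpa using h.symm) hx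
      · exact absurd (by simpa using h.symm) hy
      · exact add_right_cancel h

/-- `x ^ 5 + γ x` is a permutation polynomial only for `γ = 0` -/
theorem five_perm {n : ℕ} (hn : 3 ≤ n) (hK : Fintype.card K = 2 ^ n) {a γ : K}
    (h : Function.Injective (fun x : K => a * (x ^ 5 + γ * x))) : γ = 0 := by
  have h2 := two_eq_zero (by omega) hK
  have hp8 : 2 ^ n = 8 * 2 ^ (n - 3) := by
    rw [show (8 : ℕ) = 2 ^ 3 by norm_num, ← pow_add]; congr 1; omega
  have hp1 := Nat.one_le_two_pow (n := n - 3)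
  set q := Fintype.card K with hq
  have hbij : Function.Bijective (fun x : K => a * (x ^ 5 + γ * x)) :=
    Finite.injective_iff_bijective.1 h
  have ha : a ≠ 0 := by
    intro ha
    have := @h 0 1 (by simp [ha])
    exact zero_ne_one this
  have h3 : ∑ x : K, (a * (x ^ 5 + γ * x)) ^ (q - 5) = 0 := by
    rw [hbij.sum_comp (fun y => y ^ (q - 5))]
    exact FiniteField.sum_pow_lt_card_sub_one K _ (by omega)
  have h4 : ∀ x : K, (a * (x ^ 5 + γ * x)) ^ (q - 5) = ∑ i ∈ range (q - 5 + 1),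
      a ^ (q - 5) * (γ ^ (q - 5 - i) * (((q - 5).choose i : ℕ) : K)) * x ^ (q - 5 + 4 * i) := by
    intro x
    rw [mul_pow, add_pow, mul_sum]
    apply sum_congr rfl
    intro i hi
    rw [mem_range] at hi
    have : x ^ (q - 5 + 4 * i) = (x ^ 5) ^ i * x ^ (q - 5 - i) := by
      rw [← pow_mul, ← pow_add]; congr 1; omega
    rw [this, mul_pow]
    ring
  rw [sum_congr rfl (fun x _ => h4 x), sum_comm] at h3
  have h5 : ∀ i ∈ range (q - 5 + 1), ∑ x : K,
      a ^ (q - 5) * (γ ^ (q - 5 - i) * (((q - 5).choose i : ℕ) : K)) * x ^ (q - 5 + 4 * i) =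
      if i = 1 then a ^ (q - 5) * γ ^ (q - 6) else 0 := by
    intro i hi
    rw [mem_range] at hi
    rw [← mul_sum, sum_pow_eq (by omega)]
    by_cases hi1 : i = 1
    · subst hi1
      rw [if_pos rfl, if_pos ⟨1, by omega⟩, Nat.choose_one_right]
      have h6 : (((q - 5 : ℕ)) : K) = 1 := by
        rw [show q - 5 = 2 * (4 * 2 ^ (n - 3) - 3) + 1 by omega]
        push_cast
        rw [h2, zero_mul, zero_add]
      rw [h6, show q - 5 - 1 = q - 6 by omega]
      have h7 : (-1 : K) = 1 := by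
        rw [neg_eq_iff_add_eq_zero, one_add_one_eq_two]; exact h2
      rw [h7]; ring
    · rw [if_neg hi1, if_neg, mul_zero]
      rintro ⟨t, ht⟩
      rw [← hq] at ht
      have ht5 : t < 5 := by
        by_contra hcon
        have : (q - 1) * 5 ≤ (q - 1) * t := Nat.mul_le_mul_left _ (by omega)
        omega
      interval_cases t <;> omega
  rw [sum_congr rfl h5, sum_ite_eq', if_pos (mem_range.2 (by omega))] at h3
  have h6 := (mul_eq_zero.1 h3).resolve_left (pow_ne_zero _ ha)
  exact (pow_eq_zero_iff (by omega)).1 h6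

/-- o-polynomials of degree six -/
theorem deg_six {n : ℕ} (hn : 4 ≤ n) (hK : Fintype.card K = 2 ^ n) (f : K[X])
    (h0 : f.eval 0 = 0) (h1 : f.eval 1 = 1) (hd : f.natDegree = 6)
    (hH : IsArc (ℙ K (Fin 3 → K)) (ℙ K (Fin 3 → K)) (oSet K fun x => f.eval x)) :
    ∃ a : K, f = C (((1 + a) ^ 6 + a ^ 6)⁻¹) * ((X + C a) ^ 6 + C (a ^ 6)) := by
  have h2 := two_eq_zero (by omega) hK
  have hp16 : 16 ≤ 2 ^ n := by
    calc 16 = 2 ^ 4 := by norm_num
      _ ≤ 2 ^ n := Nat.pow_le_pow_right (by norm_num) hn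
  have hodd := odd_coeff_eq_zero (by omega) hK f (by rw [hd]; omega) hH
  have hc0 : f.coeff 0 = 0 := by rw [coeff_zero_eq_eval_zero]; exact h0
  obtain ⟨a, ha⟩ : ∃ a, f.coeff 6 = a := ⟨_, rfl⟩
  obtain ⟨b, hb⟩ : ∃ b, f.coeff 4 = b := ⟨_, rfl⟩
  obtain ⟨c, hc⟩ : ∃ c, f.coeff 2 = c := ⟨_, rfl⟩
  have ha0 : a ≠ 0 := by
    rw [← ha, ← hd, coeff_natDegree]
    apply leadingCoeff_ne_zero.2
    intro h
    rw [h, natDegree_zero] at hd
    omega
  have hf : f = C a * X ^ 6 + C b * X ^ 4 + C c * X ^ 2 := by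
    rw [f.as_sum_range' 7 (by rw [hd]; norm_num)]
    simp only [sum_range_succ, range_zero, sum_empty, zero_add]
    rw [hc0, hodd 1 (by norm_num), hodd 3 (by norm_num), hodd 5 (by norm_num), ha, hb, hc]
    simp only [monomial_zero_right, zero_add, add_zero]
    simp only [← C_mul_X_pow_eq_monomial]
    ring
  have hsq : Function.Injective (fun x : K => x ^ 2) := by
    intro x y hxy
    simp only at hxy
    have h3 : (x - y) ^ 2 = 0 := by linear_combination hxy + (y ^ 2 - x * y) * h2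
    exact sub_eq_zero.1 ((pow_eq_zero_iff (by norm_num)).1 h3)
  obtain ⟨u, hu⟩ : ∃ u : K, u ^ 2 = b / a := (Finite.injective_iff_surjective.1 hsq) (b / a)
  have hb' : b = a * u ^ 2 := by rw [hu]; field_simp
  have heval : ∀ x : K, f.eval x = a * x ^ 6 + b * x ^ 4 + c * x ^ 2 := by
    intro x
    rw [hf]
    simp
  have hslope := slope_injective hH u
  have hγ : u ^ 4 + c / a = 0 := by
    apply five_perm (a := a) (by omega) hK
    intro x y hxy
    apply hslope
    have key : ∀ x : K, (f.eval (x + u) - f.eval u) / x = a * (x ^ 5 + (u ^ 4 + c / a) * x) := by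
      intro x
      by_cases hx : x = 0
      · subst hx; simp
      · rw [div_eq_iff hx, heval, heval, hb']
        field_simp
        linear_combination (3 * a * u * x ^ 5 + 8 * a * u ^ 2 * x ^ 4 + 12 * a * u ^ 3 * x ^ 3 +
          10 * a * u ^ 4 * x ^ 2 + 5 * a * u ^ 5 * x + c * u * x) * h2
    change (f.eval (x + u) - f.eval u) / x = (f.eval (y + u) - f.eval u) / y
    rw [key, key]
    exact hxy
  have hc' : c = a * u ^ 4 := by
    have h3 : c = -(a * u ^ 4) := by
      field_simp at hγ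
      linear_combination hγ
    linear_combination h3 - a * u ^ 4 * h2
  have h3 : a * (1 + u ^ 2 + u ^ 4) = 1 := by
    rw [heval, hb', hc'] at h1
    linear_combination h1
  have h4 : (1 + u) ^ 6 + u ^ 6 = 1 + u ^ 2 + u ^ 4 := by
    linear_combination (3 * u + 7 * u ^ 2 + 10 * u ^ 3 + 7 * u ^ 4 + 3 * u ^ 5 + u ^ 6) * h2
  refine ⟨u, ?_⟩
  have h5 : (1 + u ^ 2 + u ^ 4)⁻¹ = a := by
    rw [inv_eq_iff_eq_inv]
    exact eq_inv_of_mul_eq_one_right h3
  rw [h4, h5, hf, hb', hc']
  have hC2 : (2 : K[X]) = 0 := by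
    have h6 : (2 : K[X]) = C (2 : K) := (C_ofNat 2).symm
    rw [h6, h2, C_0]
  have hCu : ∀ k : ℕ, (C u : K[X]) ^ k = C (u ^ k) := fun k => (C_pow).symm
  rw [C_mul, C_mul, ← hCu, ← hCu, ← hCu]
  linear_combination (-(C a * (3 * X ^ 5 * C u + 7 * X ^ 4 * C u ^ 2 + 10 * X ^ 3 * C u ^ 3 +
    7 * X ^ 2 * C u ^ 4 + 3 * X * C u ^ 5 + C u ^ 6))) * hC2

end

end Pool.Agent.H36.HY
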