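import Mathlib
import Pool.Agent.H36.HY.FourA
import Pool.Agent.H36.HY.Six

namespace Pool.Agent.H36.HY

open Finset Configuration Pool.Agent.H53.OM Pool.Agent.H46.Hyp Polynomial
open scoped LinearAlgebra.Projectivization

/-- closed walks of every length `n ≥ 2 L + 2` through `1` for `d = 4 m` -/
theorem walk_four {L m n : ℕ} (hodd : m % 2 = 1) (h3 : 3 ≤ m) (hL1 : 2 ^ L < 2 * (2 * m))
    (hL2 : 2 * m < 2 ^ L) (hn : 2 * L + 2 ≤ n) : Walk (2 * (2 * m) - 1) n 1 1 := by
  obtain ⟨l, rfl⟩ : ∃ l, L = l + 2 := by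
    have h2 : 2 ≤ L := by
      by_contra hcon
      have : 2 ^ L ≤ 2 ^ 1 := Nat.pow_le_pow_right (by norm_num) (by omega)
      omega
    exact ⟨L - 2, by omega⟩
  have hp : 2 ^ (l + 2) = 2 * 2 ^ (l + 1) := by rw [pow_succ]; ring
  obtain ⟨i, N, hi, hN, hdom, h4⟩ := exists_three (l := l) hodd (by omega) (by omega)
  have hκ : 2 * (2 * m) - 1 + 1 = 4 * m := by omega
  have h1 := walk_of_dom (κ := 2 * (2 * m) - 1) (by omega) (n := i + 2) (c := 1) (b := N) hN
    (by rw [hκ]; exact hdom)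
  rw [hκ] at h1
  have h5 : (1 + 4 * m * N) / 2 ^ (i + 2) = m * N / 2 ^ i := by
    rw [show i + 2 = 2 + i by ring, pow_add, ← Nat.div_div_eq_div_mul]
    congr 1
    rw [show 1 + 4 * m * N = 1 + 4 * (m * N) by ring]
    norm_num
    omega
  rw [h5] at h1
  have hlt : m * N / 2 ^ i < 4 * m := by
    rw [Nat.div_lt_iff_lt_mul (by positivity)]
    have h6 : 2 ^ (i + 2) = 4 * 2 ^ i := by rw [pow_add]; ring
    calc m * N < m * 2 ^ (i + 2) := Nat.mul_lt_mul_of_pos_left hN (by omega)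
      _ = 4 * m * 2 ^ i := by rw [h6]; ring
  obtain ⟨z, hz⟩ : ∃ z, m * N / 2 ^ i = z := ⟨_, rfl⟩
  rw [hz] at h1 h4 hlt
  obtain ⟨E, hE⟩ : ∃ E, z = 2 * E + 1 := ⟨z / 2, by omega⟩
  rw [hE] at h1
  have h7 := far_four hodd hL1 hL2 (n - (i + 2) - (l + 2 + 1)) E (by omega) (by omega)
  have h8 := h1.append h7
  rwa [show i + 2 + (l + 2 + 1 + (n - (i + 2) - (l + 2 + 1))) = n by omega] at h8

section

variable {K : Type} [Field K] [Fintype K] [DecidableEq K]

/-- o-polynomials of degree four -/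
theorem deg_four {n : ℕ} (hn : 3 ≤ n) (hK : Fintype.card K = 2 ^ n) (f : K[X])
    (h0 : f.eval 0 = 0) (h1 : f.eval 1 = 1) (hd : f.natDegree = 4)
    (hH : IsArc (ℙ K (Fin 3 → K)) (ℙ K (Fin 3 → K)) (oSet K fun x => f.eval x)) :
    f = X ^ 4 := by
  have h2 := two_eq_zero (by omega) hK
  have hp8 : 8 ≤ 2 ^ n := by
    calc 8 = 2 ^ 3 := by norm_num
      _ ≤ 2 ^ n := Nat.pow_le_pow_right (by norm_num) hn
  have hodd := odd_coeff_eq_zero (by omega) hK f (by rw [hd]; omega) hH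
  have hc0 : f.coeff 0 = 0 := by rw [coeff_zero_eq_eval_zero]; exact h0
  obtain ⟨b, hb⟩ : ∃ b, f.coeff 4 = b := ⟨_, rfl⟩
  obtain ⟨c, hc⟩ : ∃ c, f.coeff 2 = c := ⟨_, rfl⟩
  have hb0 : b ≠ 0 := by
    rw [← hb, ← hd, coeff_natDegree]
    apply leadingCoeff_ne_zero.2
    intro h
    rw [h, natDegree_zero] at hd
    omega
  have hf : f = C b * X ^ 4 + C c * X ^ 2 := by
    rw [f.as_sum_range' 5 (by rw [hd]; norm_num)]
    simp only [sum_range_succ, range_zero, sum_empty, zero_add]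
    rw [hc0, hodd 1 (by norm_num), hodd 3 (by norm_num), hb, hc]
    simp only [monomial_zero_right, zero_add, add_zero]
    simp only [← C_mul_X_pow_eq_monomial]
    ring
  have hsq : Function.Injective (fun x : K => x ^ 2) := by
    intro x y hxy
    simp only at hxy
    have h3 : (x - y) ^ 2 = 0 := by linear_combination hxy + (y ^ 2 - x * y) * h2
    exact sub_eq_zero.1 ((pow_eq_zero_iff (by norm_num)).1 h3)
  obtain ⟨u, hu⟩ : ∃ u : K, u ^ 2 = c / b := (Finite.injective_iff_surjective.1 hsq) (c / b)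
  have hinj := inj_of_arc hH
  have hc' : c = b * u ^ 2 := by rw [hu]; field_simp
  have heval : ∀ x : K, f.eval x = b * x ^ 4 + c * x ^ 2 := by
    intro x
    rw [hf]
    simp
  have hu0 : u = 0 := by
    apply hinj
    change f.eval u = f.eval 0
    rw [heval, heval, hc']
    linear_combination b * u ^ 4 * h2
  rw [hu0] at hc'
  have hc0' : c = 0 := by rw [hc']; ring
  have hb1 : b = 1 := by
    rw [heval, hc0'] at h1
    simpa using h1
  rw [hf, hc0', hb1]
  simp

end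

end Pool.Agent.H36.HY
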