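import Mathlib
import Pool.Agent.H36.HY.Odd

namespace Pool.Agent.H36.HY

open Pool.Agent.H53.OM

/-- from every odd position one reaches `1` in exactly `L + 1 + ν` steps -/
theorem no_bad {L m ν : ℕ} (hL1 : 2 ^ L < 2 * m) (hL2 : m < 2 ^ L)
    (h3 : 2 ^ (L + 1) < 3 * m) (hν4 : 4 ≤ ν) (hν : m % 2 ^ (ν + 1) = 2 ^ ν + 3) :
    ∀ E, E + 2 ≤ m → Walk (2 * m - 1) (L + 1 + ν) (2 * E + 1) 1 := by
  have hp : 2 ^ (L + 1) = 2 * 2 ^ L := by rw [pow_succ]; ring
  have hL0 : 1 ≤ L := by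
    rcases Nat.eq_zero_or_pos L with h | h
    · subst h; simp at hL2; omega
    · exact h
  obtain ⟨l, rfl⟩ : ∃ l, L = l + 1 := ⟨L - 1, by omega⟩
  have hpl : 2 ^ (l + 1) = 2 * 2 ^ l := by rw [pow_succ]; ring
  obtain ⟨κ, rfl⟩ : ∃ κ, ν = κ + 4 := ⟨ν - 4, by omega⟩
  have hpν : 2 ^ (κ + 4) = 16 * 2 ^ κ := by rw [pow_add]; ring
  have hpν1 : 2 ^ (κ + 4 + 1) = 32 * 2 ^ κ := by rw [pow_add, pow_add]; ring
  have hpκ := Nat.one_le_two_pow (n := κ)
  rw [hpν, hpν1] at hν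
  obtain ⟨M, hM⟩ : ∃ M, m = 32 * 2 ^ κ * M + (16 * 2 ^ κ + 3) := ⟨m / (32 * 2 ^ κ), by
    have := Nat.div_add_mod m (32 * 2 ^ κ); omega⟩
  have e32 : 32 * 2 ^ κ * M = 32 * (2 ^ κ * M) := by ring
  have h16 : m % 16 = 3 := by
    rw [e32] at hM
    omega
  have hν' : m % 2 ^ (κ + 4) = 3 := by
    rw [hpν]
    rw [show m = 16 * 2 ^ κ * (2 * M + 1) + 3 by rw [hM]; ring, Nat.mul_add_mod]
    exact Nat.mod_eq_of_lt (by omega)
  have hform := bad_form hL1 hL2 h3 h16 hν'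
  intro E hE
  by_contra hbad
  obtain ⟨E', hE'⟩ : ∃ E', E = 2 * E' + 1 ∨ (E % 2 = 0 ∧ E + m = 2 * E' + 1) := by
    rcases Nat.mod_two_eq_zero_or_one E with h | h
    · exact ⟨(E + m) / 2, Or.inr ⟨h, by omega⟩⟩
    · exact ⟨E / 2, Or.inl (by omega)⟩
  have hbad' : ¬ Walk (2 * m - 1) (l + 1 + 1 + (κ + 3)) (2 * E' + 1) 1 := by
    intro h
    apply hbad
    rcases hE' with h1 | ⟨_, h1⟩
    · rw [← h1] at h
      exact walk_floor h
    · rw [← h1] at h
      exact walk_jump (by omega) h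
  obtain ⟨hi1, hi2⟩ := hform (κ + 3) (by omega) E' (by omega) hbad'
  have hlt : E < 2 ^ (κ + 4) * (2 ^ (l + 1) - m) := by
    have h4 : 2 ^ (κ + 4) * (2 ^ (l + 1) - m) = 2 * (2 ^ (κ + 3) * (2 ^ (l + 1) - m)) := by
      rw [pow_succ 2 (κ + 3)]; ring
    omega
  rw [show κ + 3 + 1 = κ + 4 by ring, hpν] at hi2
  obtain ⟨F, hF⟩ : ∃ F, E' = 16 * 2 ^ κ * F + (κ + 3) % 2 := ⟨E' / (16 * 2 ^ κ), by
    have := Nat.div_add_mod E' (16 * 2 ^ κ); omega⟩
  have e16 : 16 * 2 ^ κ * F = 16 * (2 ^ κ * F) := by ring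
  rcases Nat.mod_two_eq_zero_or_one κ with hk | hk
  · -- `ν` even
    have hk1 : (κ + 3) % 2 = 1 := by omega
    rw [hk1] at hF
    rcases hE' with h1 | ⟨h1, h2⟩
    · obtain ⟨E'', hE''⟩ : ∃ E'', E + m = 2 * (2 * E'' + 1) := ⟨(E + m) / 4, by omega⟩
      have hgood : Walk (2 * m - 1) (l + 1 + 1 + (κ + 2)) (2 * E'' + 1) 1 := by
        by_contra hcon
        have h5 := (hform (κ + 2) (by omega) E'' (by omega) hcon).2
        have h6 : E'' % 2 = 0 := by
          have : E'' % 2 ^ (κ + 2 + 1) % 2 = E'' % 2 :=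
            Nat.mod_mod_of_dvd _ (dvd_pow_self 2 (by omega))
          rw [h5] at this
          omega
        omega
      apply hbad
      have h5 := walk_half hgood
      rw [← hE''] at h5
      exact walk_jump (by omega) h5
    · -- `E = 2 ^ ν w` with `w` odd
      obtain ⟨w, hw1, hw2⟩ : ∃ w, E = 16 * 2 ^ κ * w ∧ w % 2 = 1 := by
        refine ⟨2 * F - 2 * M - 1, ?_, ?_⟩
        · have h5 : E + 16 * 2 ^ κ * (2 * M + 1) = 16 * 2 ^ κ * (2 * F) := by
            have : 16 * 2 ^ κ * (2 * M + 1) = 32 * (2 ^ κ * M) + 16 * 2 ^ κ := by ring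
            have : 16 * 2 ^ κ * (2 * F) = 32 * (2 ^ κ * F) := by ring
            omega
          rw [show 2 * F - 2 * M - 1 = 2 * F - (2 * M + 1) by omega, Nat.mul_sub, ← h5,
            Nat.add_sub_cancel]
        · have h5 : E + 32 * 2 ^ κ * M + 16 * 2 ^ κ = 32 * 2 ^ κ * F := by
            have : 32 * 2 ^ κ * F = 32 * (2 ^ κ * F) := by ring
            omega
          have h6 : M < F := by
            have : 32 * 2 ^ κ * M < 32 * 2 ^ κ * F := by omega
            exact Nat.lt_of_mul_lt_mul_left this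
          omega
      have hwA : w < 2 ^ (l + 1) - m := by
        rw [hpν, hw1] at hlt
        exact Nat.lt_of_mul_lt_mul_left hlt
      obtain ⟨E'', hE''⟩ : ∃ E'', w = 2 * E'' + 1 := ⟨w / 2, by omega⟩
      have hgood : Walk (2 * m - 1) (l + 1) w 1 := by
        rw [hE'']
        exact walk_jump (by omega) (walk_desc l _ (by omega) (by omega))
      have h5 := walk_halves (v := κ + 4) hgood
      rw [hpν, ← hw1] at h5
      apply hbad
      have h6 := walk_floor h5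
      rwa [show l + 1 + (κ + 4) + 1 = l + 1 + 1 + (κ + 4) by ring] at h6
  · -- `ν` odd
    have hk1 : (κ + 3) % 2 = 0 := by omega
    rw [hk1] at hF
    obtain ⟨k, rfl⟩ : ∃ k, κ = k + 1 := ⟨κ - 1, by omega⟩
    have hpk : 2 ^ (k + 1) = 2 * 2 ^ k := by rw [pow_succ]; ring
    have hpk1 := Nat.one_le_two_pow (n := k)
    rcases hE' with h1 | ⟨h1, h2⟩
    · obtain ⟨E'', hE''⟩ : ∃ E'', E + m = 4 * (2 * E'' + 1) := by
        refine ⟨(E + m) / 8, ?_⟩
        omega
      have h5' : E'' % 2 ^ (k + 1 + 1 + 1) = 2 ^ (k + 1 + 1) := by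
        have hE2 : E'' = 2 ^ (k + 1 + 1 + 1) * (F + M) + 2 ^ (k + 1 + 1) := by
          have g1 : 2 ^ (k + 1 + 1 + 1) * (F + M) = 8 * (2 ^ k * F) + 8 * (2 ^ k * M) := by
            rw [show 2 ^ (k + 1 + 1 + 1) = 8 * 2 ^ k by rw [pow_succ, pow_succ, pow_succ]; ring]
            ring
          have g2 : 2 ^ (k + 1 + 1) = 4 * 2 ^ k := by rw [pow_succ, pow_succ]; ring
          have g3 : 2 ^ (k + 1) * F = 2 * (2 ^ k * F) := by rw [hpk]; ring
          have g4 : 2 ^ (k + 1) * M = 2 * (2 ^ k * M) := by rw [hpk]; ring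
          omega
        rw [hE2, Nat.mul_add_mod]
        exact Nat.mod_eq_of_lt (Nat.pow_lt_pow_right (by norm_num) (by omega))
      have hgood : Walk (2 * m - 1) (l + 1 + 1 + (k + 1 + 1)) (2 * E'' + 1) 1 := by
        by_contra hcon
        have h5 := (hform (k + 1 + 1) (by omega) E'' (by omega) hcon).2
        rw [h5'] at h5
        have := Nat.one_le_two_pow (n := k + 1 + 1)
        omega
      apply hbad
      have h5 := walk_half (walk_half hgood)
      rw [show 2 * (2 * (2 * E'' + 1)) = E + m by omega] at h5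
      exact walk_jump (by omega) h5
    · exfalso
      obtain ⟨E'', hE''⟩ : ∃ E'', E = 2 * (2 * E'' + 1) := ⟨E / 4, by omega⟩
      have hgood : Walk (2 * m - 1) (l + 1 + 1 + (k + 1 + 2)) (2 * E'' + 1) 1 := by
        by_contra hcon
        have h5 := (hform (k + 1 + 2) (by omega) E'' (by omega) hcon).2
        have h6 : E'' % 4 = 1 := by
          have h7 : E'' % 2 ^ (k + 1 + 2 + 1) % 2 ^ 2 = E'' % 2 ^ 2 :=
            Nat.mod_mod_of_dvd _ (pow_dvd_pow 2 (by omega))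
          rw [h5] at h7
          omega
        omega
      apply hbad
      have h5 := walk_half hgood
      rw [← hE''] at h5
      exact walk_floor h5

end Pool.Agent.H36.HY
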