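import Mathlib
import Pool.Agent.H36.HY.OddTop

namespace Pool.Agent.H36.HY

open Pool.Agent.H53.OM

/-- closed walks of every length `n ≥ 2 L + 4` through `1` -/
theorem walk_two {L m n : ℕ} (hodd : m % 2 = 1) (h5 : 5 ≤ m) (hL1 : 2 ^ L < 2 * m)
    (hL2 : m < 2 ^ L) (hn : 2 * L + 4 ≤ n) : Walk (2 * m - 1) n 1 1 := by
  by_contra hno
  have h3 : 3 ≤ m := by omega
  obtain ⟨l, rfl⟩ : ∃ l, L = l + 1 := by
    cases L with
    | zero => simp at hL2; omega
    | succ l => exact ⟨l, rfl⟩
  have hp : 2 ^ (l + 1) = 2 * 2 ^ l := by rw [pow_succ]; ring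
  have hp2 : 2 ^ (l + 1 + 1) = 4 * 2 ^ l := by rw [pow_succ, pow_succ]; ring
  have hb := hv_bounds hodd h3
  set A := 2 ^ (l + 1) - m with hA
  -- exits
  have exA : ∀ t, hv m t ≤ A → Walk (2 * m - 1) (t + (l + 1)) 1 1 := by
    intro t ht
    have hbt := hb t
    refine (walk_hv hodd h3 t).append ?_
    obtain ⟨E, hE⟩ : ∃ E, hv m t = E + 1 := ⟨hv m t - 1, by omega⟩
    rw [hE, show 2 * (E + 1) - 1 = 2 * E + 1 by omega]
    exact walk_jump (by omega) (walk_desc l _ (by omega) (by omega))
  have exB : ∀ s, A + 1 ≤ hv m s → Walk (2 * m - 1) (s + 1 + (l + 1)) 1 1 := by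
    intro s hs
    have hbs := hb s
    rw [show s + 1 + (l + 1) = s + ((l + 1) + 1) by ring]
    refine (walk_hv hodd h3 s).append ?_
    obtain ⟨E, hE⟩ : ∃ E, hv m s = E + 1 := ⟨hv m s - 1, by omega⟩
    rw [hE, show 2 * (E + 1) - 1 = 2 * E + 1 by omega]
    exact walk_jump (by omega) (walk_desc (l + 1) _ (by omega) (by omega))
  -- the set of exceptional times
  set X : ℕ → Prop := fun s => hv m s % 2 = 1 ∧ hv m s ≤ A ∧ A + 1 ≤ hv m (s + 1) with hX
  have hXof : ∀ s, ¬ Walk (2 * m - 1) (s + 1 + (l + 1)) 1 1 → X s := by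
    intro s hs
    have h1 : hv m s ≤ A := by
      by_contra hcon
      exact hs (exB s (by omega))
    have h2 : A + 1 ≤ hv m (s + 1) := by
      by_contra hcon
      exact hs (exA (s + 1) (by omega))
    refine ⟨?_, h1, h2⟩
    rcases Nat.mod_two_eq_zero_or_one (hv m s) with h | h
    · have := hv_succ_even h
      omega
    · exact h
  have hXnot : ∀ s, X s → ¬ X (s + 1) := fun s h1 h2 => by
    have a := h1.2.2
    have b := h2.2.1
    omega
  obtain ⟨T, hT⟩ : ∃ T, n = 2 * (l + 1) + 2 + T := ⟨n - (2 * (l + 1) + 2), by omega⟩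
  have hT2 : 2 ≤ T := by omega
  have hcov : ∀ s, s ≤ T → X s ∨ X (T - s) := by
    intro s hs
    by_contra hcon
    push Not at hcon
    have w1 : Walk (2 * m - 1) (s + 1 + (l + 1)) 1 1 := by
      by_contra h; exact hcon.1 (hXof s h)
    have w2 : Walk (2 * m - 1) (T - s + 1 + (l + 1)) 1 1 := by
      by_contra h; exact hcon.2 (hXof _ h)
    have w3 := w1.append w2
    rw [show s + 1 + (l + 1) + (T - s + 1 + (l + 1)) = n by omega] at w3
    exact hno w3
  rcases Nat.mod_two_eq_zero_or_one T with hTe | hTo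
  · -- `T` even: the middle pair
    obtain ⟨u, hu⟩ : ∃ u, T = 2 * (u + 1) := ⟨T / 2 - 1, by omega⟩
    have h0 : X (u + 1) := by
      have h := hcov (u + 1) (by omega)
      rwa [show T - (u + 1) = u + 1 by omega, or_self] at h
    rcases hcov u (by omega) with h | h
    · exact hXnot _ h h0
    · rw [show T - u = u + 1 + 1 by omega] at h
      exact hXnot _ h0 h
  · -- `T` odd: all even times are exceptional
    have hXstep : ∀ s, s + 2 ≤ T → X s → X (s + 2) := by
      intro s hs h
      have h1 := hXnot s h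
      have h2 : X (T - (s + 1)) := (hcov (s + 1) (by omega)).resolve_left h1
      have h3 : ¬ X (T - (s + 2)) := by
        intro h4
        apply hXnot _ h4
        rwa [show T - (s + 2) + 1 = T - (s + 1) by omega]
      exact (hcov (s + 2) hs).resolve_right h3
    have hbase : Walk (2 * m - 1) (0 + (l + 1)) 1 1 := exA 0 (by simp only [hv]; omega)
    have hXT : X (T + 1) := by
      apply hXof
      intro h
      have h4 := hbase.append h
      rw [show 0 + (l + 1) + (T + 1 + 1 + (l + 1)) = n by omega] at h4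
      exact hno h4
    have hnT : ¬ X T := fun h => hXnot T h hXT
    have hX0 : X 0 := by
      have := hcov T le_rfl
      rw [Nat.sub_self] at this
      exact this.resolve_left hnT
    have hX2 : X 2 := hXstep 0 (by omega) hX0
    have hX4 : X 4 := by
      rcases Nat.lt_or_ge T 4 with h | h
      · have : T + 1 = 4 := by omega
        rw [← this]
        exact hXT
      · exact hXstep 2 (by omega) hX2
    have g0 : hv m 0 = 1 := rfl
    have g1 := hv_succ_odd hodd hX0.1
    rw [g0] at g1
    have g2 : 4 * hv m 2 = 1 + m := by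
      rcases Nat.mod_two_eq_zero_or_one (hv m 1) with h | h
      · have := hv_succ_even h
        rw [show 1 + 1 = 2 from rfl] at this
        rw [show 0 + 1 = 1 from rfl] at g1
        omega
      · exfalso
        have := hv_succ_odd hodd h
        have h6 := hX2.2.1
        have h7 := hX0.2.2
        rw [show 1 + 1 = 2 from rfl] at this
        rw [show 0 + 1 = 1 from rfl] at g1 h7
        omega
    have g3 := hv_succ_odd hodd hX2.1
    rw [show 2 + 1 = 3 from rfl] at g3
    have h7 := hX0.2.2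
    rw [show 0 + 1 = 1 from rfl] at g1 h7
    have g4 : 16 * hv m 4 = 5 * m + 1 := by
      rcases Nat.mod_two_eq_zero_or_one (hv m 3) with h | h
      · have := hv_succ_even h
        rw [show 3 + 1 = 4 from rfl] at this
        omega
      · exfalso
        have := hv_succ_odd hodd h
        have h6 := hX4.2.1
        rw [show 3 + 1 = 4 from rfl] at this
        omega
    have h16 : m % 16 = 3 := by omega
    have h3m : 2 ^ (l + 1 + 1) < 3 * m := by omega
    -- the exact power of two dividing `m - 3`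
    obtain ⟨ν, w, hw, hmw⟩ := Nat.exists_eq_two_pow_mul_odd (n := m - 3) (by omega)
    have hν4 : 4 ≤ ν := by
      by_contra hcon
      have h8 : 16 ∣ 2 ^ ν * w := by rw [← hmw]; omega
      have h9 : (2 : ℕ) ^ 4 ∣ 2 ^ ν := by
        refine Nat.Coprime.dvd_of_dvd_mul_right (k := 2 ^ 4) ?_ (by simpa using h8)
        exact Nat.Coprime.pow_left _ (Nat.coprime_two_left.2 hw)
      have := (Nat.pow_dvd_pow_iff_le_right (by norm_num : 1 < 2)).1 h9
      omega
    have hνL : ν < l + 1 := by
      have h8 : 2 ^ ν ≤ 2 ^ ν * w := Nat.le_mul_of_pos_right _ hw.pos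
      rw [← hmw] at h8
      exact (Nat.pow_lt_pow_iff_right (by norm_num : 1 < 2)).1 (by omega)
    have hmod : m % 2 ^ (ν + 1) = 2 ^ ν + 3 := by
      obtain ⟨v, hv⟩ := hw
      have h8 : m = 2 ^ (ν + 1) * v + (2 ^ ν + 3) := by
        have : 2 ^ (ν + 1) * v = 2 ^ ν * (2 * v) := by rw [pow_succ]; ring
        rw [hv, mul_add, mul_one] at hmw
        omega
      rw [h8, Nat.mul_add_mod]
      apply Nat.mod_eq_of_lt
      have : 2 ^ 4 ≤ 2 ^ ν := Nat.pow_le_pow_right (by norm_num) hν4
      rw [pow_succ]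
      omega
    have hall := no_bad (ν := ν) hL1 hL2 h3m hν4 hmod
    apply hno
    have h9 := hb (n - (l + 1 + 1 + ν))
    have h10 := (walk_hv hodd h3 (n - (l + 1 + 1 + ν))).append
      (b := 2 * hv m (n - (l + 1 + 1 + ν)) - 1) (n := l + 1 + 1 + ν) (c := 1) (by
        obtain ⟨E, hE⟩ : ∃ E, hv m (n - (l + 1 + 1 + ν)) = E + 1 :=
          ⟨hv m (n - (l + 1 + 1 + ν)) - 1, by omega⟩
        rw [hE, show 2 * (E + 1) - 1 = 2 * E + 1 by omega]
        exact hall E (by omega))
    rwa [show n - (l + 1 + 1 + ν) + (l + 1 + 1 + ν) = n by omega] at h10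

end Pool.Agent.H36.HY
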